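import Pool.Agent.V1120.HamDeck.Main

/-!
# MP_9d0e7f_co: the number of Hamilton cycles is not determined by the `⌊cn⌋`-deck

For every real `c ∈ [0,1)` there are arbitrarily large `n` and two graphs on `n` vertices with
the same `⌊cn⌋`-vertex deck, one of them Hamiltonian and the other not.
-/

namespace Pool.Agent.Results.MP_9d0e7f_co.NotDetermined

open Pool.Agent.V1120.HamDeck

/-- The answer to Q1 is negative: for every `c ∈ [0,1)` there are arbitrarily large `n` and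
`n`-vertex graphs `G`, `G'` with equal `⌊cn⌋`-vertex decks, `G` having a Hamilton cycle and `G'`
having none; hence there are no constants `c < 1` and `n₀` as asked. -/
theorem result :
    (∀ c : ℝ, 0 ≤ c → c < 1 → ∀ N : ℕ, ∃ n : ℕ, N ≤ n ∧ ∃ G G' : SimpleGraph (Fin n),
      SameDeck G G' ⌊c * n⌋₊ ∧ 0 < hamCount G ∧ hamCount G' = 0) ∧
    ¬ ∃ (c : ℝ) (n₀ : ℕ), 0 ≤ c ∧ c < 1 ∧ ∀ n : ℕ, n₀ ≤ n → ∀ G G' : SimpleGraph (Fin n),
      SameDeck G G' ⌊c * n⌋₊ → hamCount G = hamCount G' := by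
  refine ⟨main, ?_⟩
  rintro ⟨c, n₀, hc0, hc1, h⟩
  obtain ⟨n, hn, G, G', hd, h1, h2⟩ := main c hc0 hc1 n₀
  have h3 := h n hn G G' hd
  omega

end Pool.Agent.Results.MP_9d0e7f_co.NotDetermined
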